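import Pool.Agent.helper96.LK.SpecH

/-!
# Project lk: module HYP (helper89)
-/

open Finset Filter Polynomial

namespace Pool.Agent.LK

/-- differ by an integer -/
def HYP_R (c r : ℂ) : Prop := ∃ z : ℤ, r - c = z

theorem HYP_R_refl (c : ℂ) : HYP_R c c := ⟨0, by simp⟩

theorem HYP_R_symm {c r : ℂ} (h : HYP_R c r) : HYP_R r c := by
  obtain ⟨z, hz⟩ := h
  exact ⟨-z, by push_cast; rw [← hz]; ring⟩

theorem HYP_R_trans {c r s : ℂ} (h : HYP_R c r) (h' : HYP_R r s) : HYP_R c s := by
  obtain ⟨z, hz⟩ := h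
  obtain ⟨w, hw⟩ := h'
  exact ⟨z + w, by push_cast; rw [← hz, ← hw]; ring⟩

/-- roots of the shifted polynomial -/
theorem HYP_roots (P : ℂ[X]) : (P.comp (X + C 1)).roots = P.roots.map (fun r => r - 1) := by
  classical
  ext t
  have hinj : Function.Injective (fun r : ℂ => r - 1) := fun a b h => by simpa using h
  have e : t = (fun r : ℂ => r - 1) (t + 1) := by simp
  rw [count_roots, show Multiset.count t (P.roots.map (fun r => r - 1)) =
    Multiset.count ((fun r : ℂ => r - 1) (t + 1)) (P.roots.map (fun r => r - 1)) from by rw [← e],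
    Multiset.count_map_eq_count' _ _ hinj, count_roots, rootMultiplicity_eq_rootMultiplicity,
    rootMultiplicity_eq_rootMultiplicity (t := t + 1), comp_assoc]
  congr 2
  simp only [add_comp, X_comp, C_comp, C_add]
  ring

/-- the number of roots in `c + ℤ` -/
noncomputable def HYP_N (c : ℂ) (P : ℂ[X]) : ℕ := by
  classical
  exact P.roots.countP (HYP_R c)

theorem HYP_N_mul (c : ℂ) {P Q : ℂ[X]} (h : P * Q ≠ 0) : HYP_N c (P * Q) = HYP_N c P + HYP_N c Q := by
  classical
  simp only [HYP_N, roots_mul h, Multiset.countP_add]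

theorem HYP_N_comp (c : ℂ) (P : ℂ[X]) : HYP_N c (P.comp (X + C 1)) = HYP_N c P := by
  classical
  simp only [HYP_N, HYP_roots]
  rw [Multiset.countP_map, Multiset.countP_eq_card_filter]
  congr 1
  apply Multiset.filter_congr
  intro r _
  constructor
  · rintro ⟨z, hz⟩
    exact ⟨z + 1, by push_cast; rw [← hz]; ring⟩
  · rintro ⟨z, hz⟩
    exact ⟨z - 1, by push_cast; rw [← hz]; ring⟩

open Classical in
theorem HYP_N_lin (c x : ℂ) : HYP_N c (X - C x) = if HYP_R c x then 1 else 0 := by
  simp only [HYP_N, roots_X_sub_C]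
  rw [← Multiset.cons_zero, Multiset.countP_cons, Multiset.countP_zero, zero_add]

theorem HYP_key {P Q : ℂ[X]} (hP : P ≠ 0) (hQ : Q ≠ 0) {x y x' y' : ℂ}
    (h : Q * (P.comp (X + C 1)) * ((X - C x) * (X - C y)) =
      (Q.comp (X + C 1)) * P * ((X - C x') * (X - C y'))) :
    (HYP_R x x' ∧ HYP_R y y') ∨ (HYP_R x y' ∧ HYP_R y x') := by
  classical
  have hPc : P.comp (X + C 1) ≠ 0 := by
    intro h0
    exact hP (by simpa using (comp_eq_zero_iff.1 h0))
  have hQc : Q.comp (X + C 1) ≠ 0 := by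
    intro h0
    exact hQ (by simpa using (comp_eq_zero_iff.1 h0))
  have hx : ∀ x : ℂ, (X - C x : ℂ[X]) ≠ 0 := fun x => X_sub_C_ne_zero x
  have key : ∀ c : ℂ, (if HYP_R c x then 1 else 0) + (if HYP_R c y then 1 else 0) =
      (if HYP_R c x' then 1 else 0) + (if HYP_R c y' then 1 else 0) := by
    intro c
    have h1 := congrArg (HYP_N c) h
    rw [HYP_N_mul c (mul_ne_zero (mul_ne_zero hQ hPc) (mul_ne_zero (hx _) (hx _))),
      HYP_N_mul c (mul_ne_zero hQ hPc), HYP_N_mul c (mul_ne_zero (hx _) (hx _)),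
      HYP_N_mul c (mul_ne_zero (mul_ne_zero hQc hP) (mul_ne_zero (hx _) (hx _))),
      HYP_N_mul c (mul_ne_zero hQc hP), HYP_N_mul c (mul_ne_zero (hx _) (hx _)),
      HYP_N_comp, HYP_N_comp] at h1
    simp only [HYP_N_lin] at h1
    omega
  have kx := key x
  have ky := key y
  rw [if_pos (HYP_R_refl x)] at kx
  rw [if_pos (HYP_R_refl y)] at ky
  by_cases h1 : HYP_R x x'
  · left
    refine ⟨h1, ?_⟩
    by_contra h2
    rw [if_neg h2] at ky
    by_cases h3 : HYP_R y x
    · rw [if_pos h3, if_pos (HYP_R_trans h3 h1)] at ky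
      omega
    · rw [if_neg h3] at ky
      by_cases h4 : HYP_R y x'
      · exact h3 (HYP_R_trans h4 (HYP_R_symm h1))
      · rw [if_neg h4] at ky
        omega
  · rw [if_neg h1] at kx
    have h2 : HYP_R x y' := by
      by_contra h2
      rw [if_neg h2] at kx
      omega
    right
    refine ⟨h2, ?_⟩
    by_contra h3
    rw [if_neg h3] at ky
    by_cases h4 : HYP_R y x
    · rw [if_pos h4, if_pos (HYP_R_trans h4 h2)] at ky
      omega
    · rw [if_neg h4] at ky
      by_cases h5 : HYP_R y y'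
      · exact h4 (HYP_R_trans h5 (HYP_R_symm h2))
      · rw [if_neg h5] at ky
        omega

theorem HYP_cast {a b : ℚ} (h : HYP_R (a : ℂ) (b : ℂ)) : ∃ z : ℤ, b - a = z := by
  obtain ⟨z, hz⟩ := h
  refine ⟨z, ?_⟩
  have : ((b - a : ℚ) : ℂ) = ((z : ℚ) : ℂ) := by push_cast; exact hz
  exact_mod_cast this

/-- a polynomial vanishing at all large naturals -/
theorem HYP_zero (P : ℂ[X]) (h : ∀ᶠ j : ℕ in atTop, P.eval (j : ℂ) = 0) : P = 0 := by
  obtain ⟨N, hN⟩ := eventually_atTop.1 h
  apply Polynomial.eq_zero_of_infinite_isRoot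
  have hinj : Function.Injective (fun n : ℕ => ((n + N : ℕ) : ℂ)) := by
    intro a b hab
    have h2 : ((a + N : ℕ) : ℂ) = ((b + N : ℕ) : ℂ) := hab
    have h3 : a + N = b + N := by exact_mod_cast h2
    omega
  refine (Set.infinite_range_of_injective hinj).mono ?_
  rintro _ ⟨n, rfl⟩
  exact hN (n + N) (by omega)

/-- the recursion of the hypergeometric term -/
theorem HYP_rec (x y : ℚ) (j : ℕ) : ((ch x (j + 1) * ch y (j + 1) : ℚ) : ℂ) * ((j : ℂ) + 1) ^ 2 =
    ((ch x j * ch y j : ℚ) : ℂ) * (((x : ℂ) - j) * ((y : ℂ) - j)) := by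
  have h1 := ch_succ x j
  have h2 := ch_succ y j
  have h3 : (ch x (j + 1) * ch y (j + 1)) * ((j : ℚ) + 1) ^ 2 =
      (ch x j * ch y j) * ((x - j) * (y - j)) := by
    linear_combination (ch y (j + 1) * (j + 1)) * h1 + (ch x j * (x - j)) * h2
  exact_mod_cast h3

theorem HYP : HYP_stmt := by
  classical
  intro ι _ x y hx hy hsim
  have main : ∀ m : ℕ, ∀ p : ι → ℂ[X], (univ.filter fun i => p i ≠ 0).card ≤ m →
      (∀ᶠ j : ℕ in atTop, ∑ i, (p i).eval (j : ℂ) * ((ch (x i) j * ch (y i) j : ℚ) : ℂ) = 0) →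
      ∀ i, p i = 0 := by
    intro m
    induction m with
    | zero =>
      intro p hp _ i
      by_contra hi
      have : i ∈ (univ.filter fun i => p i ≠ 0) := by simp [hi]
      have h2 := card_pos.2 ⟨i, this⟩
      omega
    | succ m ih =>
      intro p hp hrel i₀
      by_contra hi₀
      -- the new relation
      set q : ι → ℂ[X] := fun i =>
        p i₀ * ((p i).comp (X + C 1)) * ((C (x i : ℂ) - X) * (C (y i : ℂ) - X)) -
        ((p i₀).comp (X + C 1)) * ((C (x i₀ : ℂ) - X) * (C (y i₀ : ℂ) - X)) * p i with hq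
      have hq0 : q i₀ = 0 := by
        rw [hq]; ring
      have hqp : ∀ i, p i = 0 → q i = 0 := by
        intro i hi
        simp only [hq, hi, zero_comp, mul_zero, zero_mul, sub_zero]
      have hcard : (univ.filter fun i => q i ≠ 0).card ≤ m := by
        have hss : (univ.filter fun i => q i ≠ 0) ⊆ (univ.filter fun i => p i ≠ 0).erase i₀ := by
          intro i hi
          rw [mem_filter] at hi
          rw [mem_erase, mem_filter]
          refine ⟨fun h => hi.2 (h ▸ hq0), mem_univ _, fun h => hi.2 (hqp i h)⟩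
        have h1 := card_le_card hss
        rw [card_erase_of_mem (by simp [hi₀])] at h1
        omega
      have hrel' : ∀ᶠ j : ℕ in atTop,
          ∑ i, (q i).eval (j : ℂ) * ((ch (x i) j * ch (y i) j : ℚ) : ℂ) = 0 := by
        obtain ⟨N, hN⟩ := eventually_atTop.1 hrel
        refine eventually_atTop.2 ⟨N, fun j hj => ?_⟩
        have h1 := hN j hj
        have h2 := hN (j + 1) (by omega)
        have h3 : ∑ i, (p i).eval ((j : ℂ) + 1) *
            (((ch (x i) j * ch (y i) j : ℚ) : ℂ) * (((x i : ℂ) - j) * ((y i : ℂ) - j))) = 0 := by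
          have h4 : (∑ i, (p i).eval (((j + 1 : ℕ)) : ℂ) *
            ((ch (x i) (j + 1) * ch (y i) (j + 1) : ℚ) : ℂ)) * ((j : ℂ) + 1) ^ 2 = 0 := by
            rw [h2, zero_mul]
          rw [sum_mul] at h4
          rw [← h4]
          apply sum_congr rfl
          intro i _
          rw [← HYP_rec]
          push_cast
          ring
        have h5 : ∑ i, (q i).eval (j : ℂ) * ((ch (x i) j * ch (y i) j : ℚ) : ℂ) =
            (p i₀).eval (j : ℂ) * (∑ i, (p i).eval ((j : ℂ) + 1) *
            (((ch (x i) j * ch (y i) j : ℚ) : ℂ) * (((x i : ℂ) - j) * ((y i : ℂ) - j)))) -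
            (p i₀).eval ((j : ℂ) + 1) * (((x i₀ : ℂ) - j) * ((y i₀ : ℂ) - j)) *
            (∑ i, (p i).eval (j : ℂ) * ((ch (x i) j * ch (y i) j : ℚ) : ℂ)) := by
          rw [mul_sum, mul_sum, ← sum_sub_distrib]
          apply sum_congr rfl
          intro i _
          simp only [hq, eval_sub, eval_mul, eval_comp, eval_add, eval_X, eval_C]
          ring
        rw [h5, h3, h1]
        ring
      have hqz := ih q hcard hrel'
      by_cases hex : ∃ i, i ≠ i₀ ∧ p i ≠ 0
      · obtain ⟨i, hi, hpi⟩ := hex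
        have h1 := hqz i
        have h2 : p i₀ * ((p i).comp (X + C 1)) * ((X - C (x i : ℂ)) * (X - C (y i : ℂ))) =
            ((p i₀).comp (X + C 1)) * p i * ((X - C (x i₀ : ℂ)) * (X - C (y i₀ : ℂ))) := by
          rw [hq] at h1
          simp only at h1
          linear_combination h1
        rcases HYP_key hpi hi₀ h2 with ⟨h3, h4⟩ | ⟨h3, h4⟩
        · exact hsim i₀ i (Ne.symm hi) (Or.inl ⟨HYP_cast h3, HYP_cast h4⟩)
        · exact hsim i₀ i (Ne.symm hi) (Or.inr ⟨HYP_cast h4, HYP_cast h3⟩)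
      · push Not at hex
        apply hi₀
        apply HYP_zero
        filter_upwards [hrel] with j hj
        rw [sum_eq_single i₀ (fun i _ hi => by rw [hex i hi]; simp) (by simp)] at hj
        rcases mul_eq_zero.1 hj with h | h
        · exact h
        · exfalso
          have h1 : ch (x i₀) j * ch (y i₀) j = 0 := by exact_mod_cast h
          exact mul_ne_zero (ch_ne_zero (hx i₀) j) (ch_ne_zero (hy i₀) j) h1
  intro p hrel
  exact main _ p le_rfl hrel

end Pool.Agent.LK
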