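import Pool.Agent.helper89.LK.PUB

/-!
# Project lk: module PU (helper89)
-/

open Finset Filter Polynomial

namespace Pool.Agent.LK

/-- the relations of a class of the pattern `isU`, with `b` the coefficient `B (0,0)` or `0` -/
theorem PU_rel {a dl : ℤ} (P : Pt) (A B : Pt → ℂ)
    (hLA : LA a dl P = {(0, 0), (0, 1), (1, 0), (2, -1)})
    (hLB : LB a dl P = L0 P ∪ {(0, 1), (1, 0)}) (j : ℕ) :
    Rel a dl A B P 0 j = A (0, 0) * (j * PUB_s a P 0 0 j) + A (0, 1) * (j * PUB_s a P 0 1 j) +
      A (2, -1) * (j * PUB_s a P 2 (-1) j) +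
      (if 1 ≤ P.1 ∧ 1 ≤ P.2 then B (0, 0) else 0) * PUB_s a P 0 2 j + B (0, 1) * PUB_s a P 0 3 j -
      B (1, 0) * PUB_s a P 2 0 j ∧
    Rel a dl A B P 1 j = A (1, 0) * (j * PUB_s a P 1 0 j) + B (1, 0) * PUB_s a P 1 2 j -
      (if 1 ≤ P.1 ∧ 1 ≤ P.2 then B (0, 0) else 0) * PUB_s a P 1 0 j - B (0, 1) * PUB_s a P 1 1 j := by
  have e1 : (LA a dl P).filter (fun o => o.1 % 2 = 0) = {(0, 0), (0, 1), (2, -1)} := by
    rw [hLA]; decide
  have e2 : (LA a dl P).filter (fun o => o.1 % 2 = 1) = {(1, 0)} := by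
    rw [hLA]; decide
  unfold Rel
  rw [e1, e2, hLB]
  by_cases hi : 1 ≤ P.1 ∧ 1 ≤ P.2
  · have h0 : L0 P = {(0, 0)} := by rw [L0, if_pos hi]
    rw [h0, if_pos hi]
    have f1 : (({(0, 0)} ∪ {(0, 1), (1, 0)} : Finset Pt)).filter (fun o => o.1 % 2 = 0) =
      {(0, 0), (0, 1)} := by decide
    have f2 : (({(0, 0)} ∪ {(0, 1), (1, 0)} : Finset Pt)).filter (fun o => o.1 % 2 = 1) =
      {(1, 0)} := by decide
    have f3 : (({(0, 0)} ∪ {(0, 1), (1, 0)} : Finset Pt)).filter (fun o => (o.1 + 1) % 2 = 0) =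
      {(1, 0)} := by decide
    have f4 : (({(0, 0)} ∪ {(0, 1), (1, 0)} : Finset Pt)).filter (fun o => (o.1 + 1) % 2 = 1) =
      {(0, 0), (0, 1)} := by decide
    rw [f1, f2, f3, f4]
    constructor
    · rw [sum_insert (by decide), sum_insert (by decide), sum_singleton, sum_pair (by decide),
        sum_singleton]
      simp only [PUB_s]
      push_cast
      norm_num
      ring
    · rw [sum_singleton, sum_singleton, sum_pair (by decide)]
      simp only [PUB_s]
      push_cast
      norm_num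
      ring
  · have h0 : L0 P = ∅ := by rw [L0, if_neg hi]
    rw [h0, if_neg hi, empty_union]
    have f1 : (({(0, 1), (1, 0)} : Finset Pt)).filter (fun o => o.1 % 2 = 0) =
      {(0, 1)} := by decide
    have f2 : (({(0, 1), (1, 0)} : Finset Pt)).filter (fun o => o.1 % 2 = 1) =
      {(1, 0)} := by decide
    have f3 : (({(0, 1), (1, 0)} : Finset Pt)).filter (fun o => (o.1 + 1) % 2 = 0) =
      {(1, 0)} := by decide
    have f4 : (({(0, 1), (1, 0)} : Finset Pt)).filter (fun o => (o.1 + 1) % 2 = 1) =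
      {(0, 1)} := by decide
    rw [f1, f2, f3, f4]
    constructor
    · rw [sum_insert (by decide), sum_insert (by decide), sum_singleton, sum_singleton,
        sum_singleton]
      simp only [PUB_s]
      push_cast
      norm_num
      ring
    · rw [sum_singleton, sum_singleton, sum_singleton]
      simp only [PUB_s]
      push_cast
      norm_num

theorem PU (hNI : NI_stmt) : PU_stmt := by
  intro a dl ha hd0 hd1 P hP hU A B hR
  have ha2 : 2 ≤ a := by omega
  have hU' := hU
  obtain ⟨hU1, hU2, hU3⟩ := hU'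
  have hnS : ¬ isS dl P := by rw [isS]; omega
  have hnT : ¬ isT a dl P := by rw [isT]; omega
  have hLA : LA a dl P = {(0, 0), (0, 1), (1, 0), (2, -1)} := by
    rw [LA, if_neg hnS, if_neg hnT, if_pos hU]
  have hLB : LB a dl P = L0 P ∪ {(0, 1), (1, 0)} := by
    rw [LB, if_neg hnS, if_pos (Or.inr (Or.inl hU))]
  obtain ⟨hx, hy⟩ := PUB_ni hNI ha hd0 hd1 hP
  have hsne := PUB_ne hNI ha hd0 hd1 hP
  set b := (if 1 ≤ P.1 ∧ 1 ≤ P.2 then B (0, 0) else 0) with hb
  set x : ℂ := (xx a P : ℂ) with hxd
  set y : ℂ := (yy a P : ℂ) with hyd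
  have hx0 : x ≠ 0 := by have := hx 0 0; push_cast at this; simpa using this
  have hy0 : y ≠ 0 := by have := hy 0; push_cast at this; simpa using this
  have hy1 : y - 1 ≠ 0 := by
    have := hy 1; push_cast at this; exact sub_ne_zero.2 this
  have hy2 : y - 2 ≠ 0 := by
    have := hy 2; push_cast at this; exact sub_ne_zero.2 this
  have hy3 : y + 1 ≠ 0 := by
    have := hy (-1); push_cast at this
    intro h; exact this (eq_neg_of_add_eq_zero_left h)
  -- `x ≠ y + 1`
  have hxy : x - y - 1 ≠ 0 := by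
    intro h
    have h1 : (xx a P : ℚ) - yy a P - 1 = 0 := by
      have : ((xx a P - yy a P - 1 : ℚ) : ℂ) = ((0 : ℚ) : ℂ) := by push_cast; exact h
      exact_mod_cast this
    have hden := den_ne ha2
    rw [xx, yy, mu, nu, hU1] at h1
    have h2 : (2 : ℚ) * (a * ((a - 2 : ℤ) - 1) - (P.1 - 1)) - (a * (P.1 - 1) - ((a - 2 : ℤ) - 1)) -
        2 * ((a : ℚ) ^ 2 - 1) = 0 := by
      field_simp at h1
      linear_combination h1
    have h3 : 2 * (a * ((a - 2) - 1) - (P.1 - 1)) - (a * (P.1 - 1) - ((a - 2) - 1)) -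
        2 * (a ^ 2 - 1) = 0 := by exact_mod_cast h2
    nlinarith
  -- terms
  have t1 : ∀ j : ℕ, PUB_s a P 0 1 j * y = PUB_s a P 0 0 j * (y - j) := by
    intro j
    have := PUB_beta ha2 P 0 0 j
    simpa using this
  have t2 : ∀ j : ℕ, PUB_s a P 0 2 j * (y - 1) = PUB_s a P 0 1 j * (y - 1 - j) := by
    intro j
    have := PUB_beta ha2 P 0 1 j
    norm_num at this
    exact this
  have t3 : ∀ j : ℕ, PUB_s a P 0 3 j * (y - 2) = PUB_s a P 0 2 j * (y - 2 - j) := by
    intro j
    have := PUB_beta ha2 P 0 2 j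
    norm_num at this
    exact this
  have u1 : ∀ j : ℕ, PUB_s a P 1 1 j * y = PUB_s a P 1 0 j * (y - j) := by
    intro j
    have := PUB_beta ha2 P 1 0 j
    simpa using this
  have u2 : ∀ j : ℕ, PUB_s a P 1 2 j * (y - 1) = PUB_s a P 1 1 j * (y - 1 - j) := by
    intro j
    have := PUB_beta ha2 P 1 1 j
    norm_num at this
    exact this
  have v1 : ∀ j : ℕ, PUB_s a P 2 0 j * x = PUB_s a P 0 0 j * (x - j) := by
    intro j
    have := PUB_alpha ha2 P 0 0 j
    norm_num at this
    exact this
  have w1 : ∀ j : ℕ, PUB_s a P 2 0 j * (y + 1) = PUB_s a P 2 (-1) j * (y + 1 - j) := by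
    intro j
    have := PUB_beta ha2 P 2 (-1) j
    norm_num at this
    exact this
  -- parity 0
  have G0 : ∀ z : ℂ, (z * (A (0, 0) * y + A (0, 1) * (y - z)) * x * (y - 1) * (y - 2) +
      b * (y - z) * (y - 1 - z) * x * (y - 2) + B (0, 1) * (y - z) * (y - 1 - z) * (y - 2 - z) * x -
      B (1, 0) * (x - z) * y * (y - 1) * (y - 2)) * (y + 1 - z) +
      A (2, -1) * z * (x - z) * (y + 1) * y * (y - 1) * (y - 2) = 0 := by
    have := PUB_all ((X * (C (A (0, 0)) * C y + C (A (0, 1)) * (C y - X)) * C x * (C y - 1) * (C y - 2) +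
      C b * (C y - X) * (C y - 1 - X) * C x * (C y - 2) +
      C (B (0, 1)) * (C y - X) * (C y - 1 - X) * (C y - 2 - X) * C x -
      C (B (1, 0)) * (C x - X) * C y * (C y - 1) * (C y - 2)) * (C y + 1 - X) +
      C (A (2, -1)) * X * (C x - X) * (C y + 1) * C y * (C y - 1) * (C y - 2)) (by
        filter_upwards [hR.1] with j hj
        rw [(PU_rel P A B hLA hLB j).1, ← hb] at hj
        simp only [eval_add, eval_sub, eval_mul, eval_X, eval_C, eval_one, eval_ofNat]
        have hs := hsne 0 0 j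
        apply mul_left_cancel₀ hs
        rw [mul_zero]
        have T1 := t1 j
        have T2 := t2 j
        have T3 := t3 j
        have V1 := v1 j
        have W1 := w1 j
        linear_combination (x * y * (y - 1) * (y - 2) * (y + 1 - j)) * hj -
          (A (0, 1) * j * x * (y - 1) * (y - 2) * (y + 1 - j)) * T1 -
          (b * x * (y - 2) * (y + 1 - j)) * (y * T2 + (y - 1 - j) * T1) -
          (B (0, 1) * x * (y + 1 - j)) * (y * (y - 1) * T3 + (y - 2 - j) * (y * T2 + (y - 1 - j) * T1)) +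
          (B (1, 0) * y * (y - 1) * (y - 2) * (y + 1 - j)) * V1 +
          (A (2, -1) * j * y * (y - 1) * (y - 2)) * (x * W1 - (y + 1) * V1))
    intro z
    have h2 := this z
    simp only [eval_add, eval_sub, eval_mul, eval_X, eval_C, eval_one, eval_ofNat] at h2
    exact h2
  have a' : A (2, -1) = 0 := by
    have h2 := G0 (y + 1)
    have h3 : A (2, -1) * ((y + 1) * (x - y - 1) * (y + 1) * y * (y - 1) * (y - 2)) = 0 := by
      linear_combination h2
    exact (mul_eq_zero.1 h3).resolve_right (mul_ne_zero (mul_ne_zero (mul_ne_zero (mul_ne_zero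
      (mul_ne_zero hy3 hxy) hy3) hy0) hy1) hy2)
  have E0 : ∀ z : ℂ, z * (A (0, 0) * y + A (0, 1) * (y - z)) * x * (y - 1) * (y - 2) +
      b * (y - z) * (y - 1 - z) * x * (y - 2) + B (0, 1) * (y - z) * (y - 1 - z) * (y - 2 - z) * x -
      B (1, 0) * (x - z) * y * (y - 1) * (y - 2) = 0 := by
    have := PUB_all (X * (C (A (0, 0)) * C y + C (A (0, 1)) * (C y - X)) * C x * (C y - 1) * (C y - 2) +
      C b * (C y - X) * (C y - 1 - X) * C x * (C y - 2) +
      C (B (0, 1)) * (C y - X) * (C y - 1 - X) * (C y - 2 - X) * C x -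
      C (B (1, 0)) * (C x - X) * C y * (C y - 1) * (C y - 2)) (by
        filter_upwards with j
        simp only [eval_add, eval_sub, eval_mul, eval_X, eval_C, eval_one, eval_ofNat]
        have h2 := G0 j
        rw [a'] at h2
        have h3 : y + 1 - j ≠ 0 := by
          have := hy ((j : ℤ) - 1)
          push_cast at this
          intro h
          apply this
          linear_combination h
        apply mul_right_cancel₀ h3
        linear_combination h2)
    intro z
    have h2 := this z
    simp only [eval_add, eval_sub, eval_mul, eval_X, eval_C, eval_one, eval_ofNat] at h2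
    exact h2
  -- parity 1
  have E1 : ∀ z : ℂ, z * A (1, 0) * y * (y - 1) + B (1, 0) * (y - z) * (y - 1 - z) - b * y * (y - 1) -
      B (0, 1) * (y - z) * (y - 1) = 0 := by
    have := PUB_all (X * C (A (1, 0)) * C y * (C y - 1) + C (B (1, 0)) * (C y - X) * (C y - 1 - X) -
      C b * C y * (C y - 1) - C (B (0, 1)) * (C y - X) * (C y - 1)) (by
        filter_upwards [hR.2] with j hj
        rw [(PU_rel P A B hLA hLB j).2, ← hb] at hj
        simp only [eval_add, eval_sub, eval_mul, eval_X, eval_C, eval_one]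
        have hs := hsne 1 0 j
        apply mul_left_cancel₀ hs
        rw [mul_zero]
        have U1 := u1 j
        have U2 := u2 j
        linear_combination (y * (y - 1)) * hj - (B (1, 0)) * (y * U2 + (y - 1 - j) * U1) +
          (B (0, 1) * (y - 1)) * U1)
    intro z
    have h2 := this z
    simp only [eval_add, eval_sub, eval_mul, eval_X, eval_C, eval_one] at h2
    exact h2
  obtain ⟨c1, c2, c3, c4, c5, c6⟩ := PUB_core hx0 hy0 hy1 hy2 E0 E1
  constructor
  · intro o ho
    rw [hLA] at ho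
    simp only [mem_insert, mem_singleton] at ho
    rcases ho with rfl | rfl | rfl | rfl
    · exact c1
    · exact c2
    · exact c3
    · exact a'
  · intro o ho
    rw [hLB, mem_union] at ho
    rcases ho with ho | ho
    · rw [L0] at ho
      by_cases hi : 1 ≤ P.1 ∧ 1 ≤ P.2
      · rw [if_pos hi, mem_singleton] at ho
        rw [ho]
        rw [hb, if_pos hi] at c4
        exact c4
      · rw [if_neg hi] at ho
        simp at ho
    · simp only [mem_insert, mem_singleton] at ho
      rcases ho with rfl | rfl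
      · exact c5
      · exact c6

end Pool.Agent.LK
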