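import Pool.Agent.helper96.LK.SpecH

/-!
# Project lk: common tools of the modules PU, PW (helper89)
-/

open Finset Filter Polynomial

namespace Pool.Agent.LK

/-- a polynomial function vanishing at all large naturals vanishes -/
theorem PUB_all (P : ℂ[X]) (h : ∀ᶠ j : ℕ in atTop, P.eval (j : ℂ) = 0) (z : ℂ) : P.eval z = 0 := by
  obtain ⟨N, hN⟩ := eventually_atTop.1 h
  have h0 : P = 0 := by
    apply Polynomial.eq_zero_of_infinite_isRoot
    have hinj : Function.Injective (fun n : ℕ => ((n + N : ℕ) : ℂ)) := by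
      intro a b hab
      have h2 : ((a + N : ℕ) : ℂ) = ((b + N : ℕ) : ℂ) := hab
      have h3 : a + N = b + N := by exact_mod_cast h2
      omega
    refine (Set.infinite_range_of_injective hinj).mono ?_
    rintro _ ⟨n, rfl⟩
    exact hN (n + N) (by omega)
  rw [h0, eval_zero]

/-- the complex value of the term at the offset `(i, k)` -/
noncomputable def PUB_s (a : ℤ) (P : Pt) (i k : ℤ) (j : ℕ) : ℂ := ((sg a (shift a P (i, k)) j : ℚ) : ℂ)

theorem PUB_beta {a : ℤ} (ha : 2 ≤ a) (P : Pt) (i k : ℤ) (j : ℕ) :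
    PUB_s a P i (k + 1) j * ((yy a P : ℂ) - k) = PUB_s a P i k j * ((yy a P : ℂ) - k - j) := by
  have h := sg_beta ha (shift a P (i, k)) j
  rw [shift_shift, yy_shift ha] at h
  simp only [Prod.mk_add_mk, add_zero] at h
  rw [PUB_s, PUB_s]
  exact_mod_cast h

theorem PUB_alpha {a : ℤ} (ha : 2 ≤ a) (P : Pt) (i k : ℤ) (j : ℕ) :
    PUB_s a P (i + 2) k j * ((xx a P : ℂ) - i / 2) = PUB_s a P i k j * ((xx a P : ℂ) - i / 2 - j) := by
  have h := sg_alpha2 ha (shift a P (i, k)) j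
  rw [shift_shift, xx_shift ha] at h
  simp only [Prod.mk_add_mk, add_zero] at h
  rw [PUB_s, PUB_s]
  exact_mod_cast h

/-- the parameters are not integers, as complex numbers -/
theorem PUB_ni (h : NI_stmt) {a dl : ℤ} (ha : 11 ≤ a) (h0 : 0 ≤ dl) (h1 : dl ≤ 1) {P : Pt}
    (hP : P ∈ BB a dl) : (∀ i z : ℤ, (xx a P : ℂ) - i / 2 ≠ z) ∧ ∀ z : ℤ, (yy a P : ℂ) ≠ z := by
  constructor
  · intro i z hz
    have h2 := (h a dl ha h0 h1 P hP (i, 0) z).1
    rw [xx_shift (by omega)] at h2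
    apply h2
    simp only
    have h3 : ((xx a P - i / 2 : ℚ) : ℂ) = ((z : ℚ) : ℂ) := by push_cast; exact hz
    exact_mod_cast h3
  · intro z hz
    have h2 := (h a dl ha h0 h1 P hP (0, 0) z).2
    rw [shift_zero] at h2
    apply h2
    have h3 : ((yy a P : ℚ) : ℂ) = ((z : ℚ) : ℂ) := by push_cast; exact hz
    exact_mod_cast h3

/-- the terms do not vanish -/
theorem PUB_ne (h : NI_stmt) {a dl : ℤ} (ha : 11 ≤ a) (h0 : 0 ≤ dl) (h1 : dl ≤ 1) {P : Pt}
    (hP : P ∈ BB a dl) (i k : ℤ) (j : ℕ) : PUB_s a P i k j ≠ 0 := by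
  have h2 := h a dl ha h0 h1 P hP (i, k)
  have h3 : sg a (shift a P (i, k)) j ≠ 0 :=
    mul_ne_zero (ch_ne_zero (fun z => (h2 z).1) j) (ch_ne_zero (fun z => (h2 z).2) j)
  rw [PUB_s]
  exact_mod_cast h3

/-- the six unknowns of the basic pattern -/
theorem PUB_core {x y A00 A01 A10 B00 B01 B10 : ℂ} (hx : x ≠ 0) (hy : y ≠ 0) (hy1 : y - 1 ≠ 0)
    (hy2 : y - 2 ≠ 0)
    (E0 : ∀ z : ℂ, z * (A00 * y + A01 * (y - z)) * x * (y - 1) * (y - 2) +
      B00 * (y - z) * (y - 1 - z) * x * (y - 2) + B01 * (y - z) * (y - 1 - z) * (y - 2 - z) * x -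
      B10 * (x - z) * y * (y - 1) * (y - 2) = 0)
    (E1 : ∀ z : ℂ, z * A10 * y * (y - 1) + B10 * (y - z) * (y - 1 - z) - B00 * y * (y - 1) -
      B01 * (y - z) * (y - 1) = 0) :
    A00 = 0 ∧ A01 = 0 ∧ A10 = 0 ∧ B00 = 0 ∧ B01 = 0 ∧ B10 = 0 := by
  have b01 : B01 = 0 := by
    have : B01 * x = 0 := by
      linear_combination (-1/6 : ℂ) * (E0 3) + (1/2 : ℂ) * (E0 2) - (1/2 : ℂ) * (E0 1) +
        (1/6 : ℂ) * (E0 0)
    exact (mul_eq_zero.1 this).resolve_right hx
  subst b01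
  have b10 : B10 = 0 := by
    linear_combination (1/2 : ℂ) * (E1 2) - (E1 1) + (1/2 : ℂ) * (E1 0)
  subst b10
  have b00 : B00 = 0 := by
    have : B00 * (y * (y - 1)) = 0 := by linear_combination -(E1 0)
    exact (mul_eq_zero.1 this).resolve_right (mul_ne_zero hy hy1)
  subst b00
  have a10 : A10 = 0 := by
    have : A10 * (y * (y - 1)) = 0 := by linear_combination (E1 1)
    exact (mul_eq_zero.1 this).resolve_right (mul_ne_zero hy hy1)
  subst a10
  have a01 : A01 = 0 := by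
    have : A01 * (x * (y - 1) * (y - 2)) = 0 := by
      linear_combination (-1/2 : ℂ) * (E0 2) + (E0 1)
    exact (mul_eq_zero.1 this).resolve_right (mul_ne_zero (mul_ne_zero hx hy1) hy2)
  subst a01
  have a00 : A00 = 0 := by
    have : A00 * (y * (x * (y - 1) * (y - 2))) = 0 := by linear_combination (E0 1)
    exact (mul_eq_zero.1 this).resolve_right
      (mul_ne_zero hy (mul_ne_zero (mul_ne_zero hx hy1) hy2))
  subst a00
  exact ⟨rfl, rfl, rfl, rfl, rfl, rfl⟩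

end Pool.Agent.LK
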